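import Mathlib

set_option autoImplicit false

namespace Pool.Agent.Results.MP_acd90d_co.NoPerfectBasis

open Finset

theorem card_pi {κ : Type*} [DecidableEq κ] (s : Finset κ) (n : ℕ) :
    (s.piAntidiag n).card = (s.card + n - 1).choose n := by
  rw [← Finset.card_finsuppAntidiag_nat_eq_choose]
  simp [finsuppAntidiag]

/-- The arithmetic inequality behind the proof. -/
theorem arith (r t : ℕ)
    (h : (r + t + 3).choose (t + 1) + (r + 2) * (r + t + 2).choose (t + 1)
      ≤ (r + t + 4).choose (t + 2)) : False := by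
  have e1 : (r + t + 4).choose (t + 2)
      = (r + t + 3).choose (t + 1) + (r + t + 3).choose (t + 2) :=
    Nat.choose_succ_succ (r + t + 3) (t + 1)
  have e2 : (r + t + 3).choose (t + 2)
      = (r + t + 2).choose (t + 1) + (r + t + 2).choose (t + 2) :=
    Nat.choose_succ_succ (r + t + 2) (t + 1)
  have e3 : (r + t + 2).choose (t + 2) * (t + 2)
      = (r + t + 2).choose (t + 1) * (r + t + 2 - (t + 1)) :=
    Nat.choose_succ_right_eq (r + t + 2) (t + 1)
  have e4 : r + t + 2 - (t + 1) = r + 1 := by omega
  rw [e4] at e3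
  have hpos : 0 < (r + t + 2).choose (t + 2) := Nat.choose_pos (by omega)
  rw [e1, e2] at h
  have h' : (r + 1) * (r + t + 2).choose (t + 1) ≤ (r + t + 2).choose (t + 2) := by
    nlinarith
  nlinarith

theorem core {κ : Type*} [Fintype κ] [DecidableEq κ] {G : Type*} [AddCommGroup G] [Fintype G]
    (o : κ) (a : κ → G) (r t : ℕ) (hκ : Fintype.card κ = r + 3)
    (hsurj : ∀ g : G, ∃ c ∈ (univ : Finset κ).piAntidiag (t + 2), ∑ i, c i • a i = g)
    (hcard : Fintype.card G = (r + t + 4).choose (t + 2)) : False := by
  classical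
  let S : Finset (κ → ℕ) := (univ : Finset κ).piAntidiag (t + 2)
  let φ : (κ → ℕ) → G := fun c => ∑ i, c i • a i
  have hScard : S.card = (r + t + 4).choose (t + 2) := by
    simp only [S]
    rw [card_pi, card_univ, hκ]
    congr 1
    omega
  have himg : S.image φ = univ := by
    ext g
    simp only [mem_image, mem_univ, iff_true]
    obtain ⟨c, hc, hg⟩ := hsurj g
    exact ⟨c, hc, hg⟩
  have hinj : Set.InjOn φ S := by
    rw [← card_image_iff, himg, card_univ, hcard, hScard]
  have hadd : ∀ (i : κ) (w : κ → ℕ), φ (Pi.single i 1 + w) = a i + φ w := by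
    intro i w
    simp only [φ, Pi.add_apply, add_smul, sum_add_distrib]
    congr 1
    rw [sum_eq_single i]
    · simp
    · intro j _ hj
      simp [Pi.single_eq_of_ne hj]
    · simp
  have hmem : ∀ (i : κ) (w : κ → ℕ), w ∈ (univ : Finset κ).piAntidiag (t + 1) →
      Pi.single i 1 + w ∈ S := by
    intro i w hw
    rw [mem_piAntidiag] at hw
    simp only [S, mem_piAntidiag, mem_univ, implies_true, and_true]
    have h1 : ∑ j, ((Pi.single i 1 : κ → ℕ) + w) j
        = ∑ j, (Pi.single i 1 : κ → ℕ) j + ∑ j, w j := by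
      simp only [Pi.add_apply, sum_add_distrib]
    have h2 : ∑ j, (Pi.single i 1 : κ → ℕ) j = 1 := by simp
    have h3 : ∑ j, w j = t + 1 := hw.1
    show ∑ j, ((Pi.single i 1 : κ → ℕ) + w) j = t + 2
    rw [h1, h2, h3]; ring
  let F : κ → Finset (κ → ℕ) := fun i =>
    if i = o then (univ : Finset κ).piAntidiag (t + 1)
    else ((univ : Finset κ).erase i).piAntidiag (t + 1)
  have hF : ∀ i w, w ∈ F i → w ∈ (univ : Finset κ).piAntidiag (t + 1) ∧ (i ≠ o → w i = 0) := by
    intro i w hw
    by_cases hi : i = o
    · simp only [F, hi, if_true] at hw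
      exact ⟨hw, fun h => absurd hi h⟩
    · simp only [F, hi, if_false] at hw
      rw [mem_piAntidiag] at hw
      have hwi : w i = 0 := by
        by_contra hne
        have := hw.2 i hne
        simp at this
      refine ⟨?_, fun _ => hwi⟩
      rw [mem_piAntidiag]
      refine ⟨?_, fun _ _ => mem_univ _⟩
      rw [← add_sum_erase _ _ (mem_univ i), hwi, zero_add]
      exact hw.1
  let T : Finset (Σ _ : κ, κ → ℕ) := univ.sigma F
  let ψ : (Σ _ : κ, κ → ℕ) → G := fun p => a p.1 - φ p.2
  have hψ : Set.InjOn ψ T := by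
    rintro ⟨i, w⟩ hp ⟨j, w'⟩ hq heq
    have hp' := hF i w (by simpa [T] using hp)
    have hq' := hF j w' (by simpa [T] using hq)
    have h1 : φ (Pi.single i 1 + w') = φ (Pi.single j 1 + w) := by
      rw [hadd, hadd]
      simp only [ψ] at heq
      have : a i + φ w' = a j + φ w := by
        have h' := sub_eq_sub_iff_add_eq_add.mp heq
        exact h'
      exact this
    have h2 := hinj (hmem i w' hq'.1) (hmem j w hp'.1) h1
    by_cases hij : i = j
    · subst hij
      have h3 : w' = w := add_left_cancel h2
      rw [h3]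
    · exfalso
      rcases eq_or_ne i o with hio | hio
      · have hjo : j ≠ o := fun h => hij (hio.trans h.symm)
        have := congrFun h2 j
        simp only [Pi.add_apply, Pi.single_eq_same, Pi.single_eq_of_ne (Ne.symm hij)] at this
        rw [hq'.2 hjo] at this
        omega
      · have := congrFun h2 i
        simp only [Pi.add_apply, Pi.single_eq_same, Pi.single_eq_of_ne hij] at this
        rw [hp'.2 hio] at this
        omega
  have hle : T.card ≤ Fintype.card G := by
    rw [← card_image_of_injOn hψ]
    exact card_le_univ _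
  have hT : T.card = (r + t + 3).choose (t + 1) + (r + 2) * (r + t + 2).choose (t + 1) := by
    simp only [T]
    rw [card_sigma, ← add_sum_erase _ _ (mem_univ o)]
    congr 1
    · simp only [F, if_true]
      rw [card_pi, card_univ, hκ]
      congr 1
      omega
    · have : ∀ i ∈ (univ : Finset κ).erase o, (F i).card = (r + t + 2).choose (t + 1) := by
        intro i hi
        have hi' : i ≠ o := ne_of_mem_erase hi
        simp only [F, hi', if_false]
        rw [card_pi, card_erase_of_mem (mem_univ i), card_univ, hκ]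
        congr 1
        omega
      rw [sum_congr rfl this, sum_const, card_erase_of_mem (mem_univ o), card_univ, hκ]
      simp
  rw [hT, hcard] at hle
  exact arith r t hle

/-- There is no perfect `s`-basis of size `m` in any finite abelian group when `s ≥ 2` and
`m ≥ 2`. -/
theorem result.{u} (s m : ℕ) (hs : 2 ≤ s) (hm : 2 ≤ m) (G : Type u) [AddCommGroup G] [Fintype G]
    (A : Finset G) (hA : A.card = m)
    (hbasis : ∀ g : G, ∃ c : G → ℕ, ∑ x ∈ A, c x ≤ s ∧ ∑ x ∈ A, c x • x = g) :
    Fintype.card G ≠ (m + s).choose s := by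
  classical
  intro hcard
  obtain ⟨t, rfl⟩ : ∃ t, s = t + 2 := ⟨s - 2, by omega⟩
  obtain ⟨r, rfl⟩ : ∃ r, m = r + 2 := ⟨m - 2, by omega⟩
  refine core (κ := Option A) (G := G) none (fun i => i.elim 0 (fun x => (x : G))) r t ?_ ?_ ?_
  · simp [hA]
  · intro g
    obtain ⟨c, hc, hg⟩ := hbasis g
    refine ⟨fun i => i.elim (t + 2 - ∑ x ∈ A, c x) (fun x => c x), ?_, ?_⟩
    · rw [mem_piAntidiag]
      refine ⟨?_, fun _ _ => mem_univ _⟩
      rw [Fintype.sum_option]
      simp only [Option.elim]
      rw [← Finset.sum_coe_sort A c] at hc ⊢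
      omega
    · rw [Fintype.sum_option]
      simp only [Option.elim, smul_zero, zero_add]
      rw [← hg, ← Finset.sum_coe_sort A (fun x => c x • x)]
  · rw [hcard]
    congr 1
    omega

end Pool.Agent.Results.MP_acd90d_co.NoPerfectBasis
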